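import Mathlib
import Pool.Agent.TH407.MZ.Defs
set_option autoImplicit false

/-!
# The `L⁴` bound on compact sets of parameters
-/

namespace Pool.Agent.TH822.MZ

open MeasureTheory Set Complex Filter Topology
open scoped ENNReal NNReal Real ComplexConjugate
open Pool.Agent.TH407 Pool.Agent.TH407.MZ
open Pool.Agent.TH407.MV (chi wv dt AC)

/-- the bound on a set of parameters -/
def Pr (U : Set ((ℝ × ℝ) × (ℝ × ℝ))) : Prop :=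
  ∃ (r : ℝ) (C : ℝ≥0), 0 < r ∧ r ≤ 1 ∧
    ∀ δ ε t : ℝ, 1 ≤ t → 0 < ε ^ 2 + δ ^ 2 → ∀ A : ℝ → ℂ, AC A →
      ∀ (G : ℝ → ℂ) (B : ℝ≥0), Measurable G → (∀ x, r < |x| → G x = 0) → (∀ x, ‖G x‖ₑ ≤ B) →
      ∫⁻ y in {y : ℝ × ℝ | (y, (δ, ε)) ∈ U}, ‖TTz A δ ε t G y‖ₑ ^ 4 ≤
        C * ENNReal.ofReal ((1 + Real.log t) ^ 2 / (t ^ 2 * (ε ^ 2 + δ ^ 2))) * B ^ 2 *
          ∫⁻ x, ‖G x‖ₑ ^ 2

theorem compL4z_of (h3 : LocL4z) : CompL4z := by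
  intro Y1 Y2 b1 c0 A0 hY1 hc0
  set K : Set ((ℝ × ℝ) × (ℝ × ℝ)) := {p | (Y1 ≤ p.1.1 ∧ p.1.1 ≤ Y2) ∧ (-b1 ≤ p.1.2 ∧ p.1.2 ≤ b1) ∧
    (0 ≤ p.2.1 ∧ p.2.1 ≤ 1) ∧ (0 ≤ p.2.2 ∧ p.2.2 ≤ A0) ∧ c0 ≤ p.1.2 ^ 2 + p.2.1 ^ 2} with hK
  have hKc : IsCompact K := by
    refine IsCompact.of_isClosed_subset
      ((isCompact_Icc (a := Y1) (b := Y2)).prod (isCompact_Icc (a := -b1) (b := b1)) |>.prod
        ((isCompact_Icc (a := (0:ℝ)) (b := 1)).prod (isCompact_Icc (a := (0:ℝ)) (b := A0)))) ?_ ?_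
    · have e : K = ({p : (ℝ × ℝ) × (ℝ × ℝ) | Y1 ≤ p.1.1} ∩ {p | p.1.1 ≤ Y2}) ∩
          (({p | -b1 ≤ p.1.2} ∩ {p | p.1.2 ≤ b1}) ∩ (({p | 0 ≤ p.2.1} ∩ {p | p.2.1 ≤ 1}) ∩
          (({p | 0 ≤ p.2.2} ∩ {p | p.2.2 ≤ A0}) ∩ {p | c0 ≤ p.1.2 ^ 2 + p.2.1 ^ 2}))) := rfl
      rw [e]
      refine IsClosed.inter ((isClosed_le (by fun_prop) (by fun_prop)).inter
        (isClosed_le (by fun_prop) (by fun_prop))) (IsClosed.inter
        ((isClosed_le (by fun_prop) (by fun_prop)).inter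
        (isClosed_le (by fun_prop) (by fun_prop))) (IsClosed.inter
        ((isClosed_le (by fun_prop) (by fun_prop)).inter
        (isClosed_le (by fun_prop) (by fun_prop))) (IsClosed.inter
        ((isClosed_le (by fun_prop) (by fun_prop)).inter
        (isClosed_le (by fun_prop) (by fun_prop)))
        (isClosed_le (by fun_prop) (by fun_prop)))))
    · rintro ⟨⟨y1, y2⟩, ⟨δ, ε⟩⟩ ⟨h1, h2, h3, h4, _⟩
      exact ⟨⟨h1, h2⟩, ⟨h3, h4⟩⟩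
  have key : Pr K := by
    refine hKc.induction_on (p := Pr) ?_ ?_ ?_ ?_
    · refine ⟨1, 0, one_pos, le_rfl, fun δ ε t _ _ A _ G B _ _ _ => ?_⟩
      simp
    · rintro s t hst ⟨r, C, hr0, hr1, h⟩
      refine ⟨r, C, hr0, hr1, fun δ ε u hu hp A hA G B hG hG0 hGB => ?_⟩
      refine le_trans (lintegral_mono_set fun y hy => ?_) (h δ ε u hu hp A hA G B hG hG0 hGB)
      exact hst hy
    · rintro s t ⟨r1, C1, hr10, hr11, h1⟩ ⟨r2, C2, hr20, hr21, h2⟩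
      refine ⟨min r1 r2, C1 + C2, lt_min hr10 hr20, (min_le_left _ _).trans hr11,
        fun δ ε u hu hp A hA G B hG hG0 hGB => ?_⟩
      have g1 := h1 δ ε u hu hp A hA G B hG
        (fun x hx => hG0 x (lt_of_le_of_lt (min_le_left _ _) hx)) hGB
      have g2 := h2 δ ε u hu hp A hA G B hG
        (fun x hx => hG0 x (lt_of_le_of_lt (min_le_right _ _) hx)) hGB
      have e : {y : ℝ × ℝ | (y, (δ, ε)) ∈ s ∪ t} =
          {y : ℝ × ℝ | (y, (δ, ε)) ∈ s} ∪ {y : ℝ × ℝ | (y, (δ, ε)) ∈ t} := rfl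
      rw [e]
      refine (lintegral_union_le _ _ _).trans ((add_le_add g1 g2).trans (le_of_eq ?_))
      rw [ENNReal.coe_add]
      ring
    · rintro ⟨⟨a, b⟩, ⟨δ0, ε0⟩⟩ ⟨⟨k1, _⟩, _, _, _, k5⟩
      have ha : 0 < a := by
        have : Y1 ≤ a := k1
        linarith
      have hb : b ≠ 0 ∨ δ0 ≠ 0 := by
        by_contra hc
        push Not at hc
        have : c0 ≤ b ^ 2 + δ0 ^ 2 := k5
        rw [hc.1, hc.2] at this
        linarith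
      obtain ⟨r, C, hr0, hr1, h⟩ := h3 a b δ0 ε0 ha hb
      refine ⟨(Metric.closedBall a r ×ˢ Metric.closedBall b r) ×ˢ
        (Metric.closedBall δ0 r ×ˢ Metric.closedBall ε0 r), ?_, ?_⟩
      · apply mem_nhdsWithin_of_mem_nhds
        exact prod_mem_nhds (prod_mem_nhds (Metric.closedBall_mem_nhds _ hr0)
          (Metric.closedBall_mem_nhds _ hr0)) (prod_mem_nhds (Metric.closedBall_mem_nhds _ hr0)
          (Metric.closedBall_mem_nhds _ hr0))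
      · refine ⟨r, C, hr0, hr1, fun δ ε u hu hp A hA G B hG hG0 hGB => ?_⟩
        by_cases hδ : |δ - δ0| ≤ r ∧ |ε - ε0| ≤ r
        · refine le_trans (lintegral_mono_set ?_) (h δ ε u hδ.1 hδ.2 hu hp A hA G B hG hG0 hGB)
          rintro ⟨y1, y2⟩ ⟨⟨g1, g2⟩, _⟩
          exact ⟨g1, g2⟩
        · have e : {y : ℝ × ℝ | (y, (δ, ε)) ∈ (Metric.closedBall a r ×ˢ Metric.closedBall b r) ×ˢ
              (Metric.closedBall δ0 r ×ˢ Metric.closedBall ε0 r)} = ∅ := by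
            rw [eq_empty_iff_forall_notMem]
            rintro ⟨y1, y2⟩ ⟨_, g3, g4⟩
            exact hδ ⟨g3, g4⟩
          rw [e]
          simp
  obtain ⟨r, C, hr0, hr1, h⟩ := key
  refine ⟨r, C, hr0, hr1, fun δ ε t hδ0 hδ1 hε0 hε1 ht A hA G B hG hG0 hGB => ?_⟩
  refine le_trans (lintegral_mono_set ?_) (h δ ε t ht (by positivity) A hA G B hG hG0 hGB)
  rintro ⟨y1, y2⟩ ⟨g1, g2, g3, g4⟩
  exact ⟨⟨g1, g2⟩, abs_le.1 g3, ⟨hδ0.le, hδ1⟩, ⟨hε0, hε1⟩, g4⟩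

end Pool.Agent.TH822.MZ
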